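import Pool.Agent.H8.PU.Targets

/-!
# TS: translation of formulas over coloured planar graphs into formulas over planar graphs with gadgets
-/

set_option autoImplicit false

namespace Pool.Agent.H16.PU

open Pool.Agent.H69.Sp Pool.Agent.H69.Mt Pool.Agent.H16.TO Pool.Agent.H8.PL Pool.Agent.H8.PU

section forms

/-- at least `k` neighbours -/
def geDeg (k : ℕ) (v : Bool) : G2 := .cnt k (!v) (.adj v (!v))

/-- exactly `k` neighbours -/
def eqDeg (k : ℕ) (v : Bool) : G2 := .and (geDeg k v) (.neg (geDeg (k + 1) v))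

/-- at least `c` neighbours of degree `k` -/
def geNb (k c : ℕ) (v : Bool) : G2 := .cnt c (!v) (.and (.adj v (!v)) (eqDeg k (!v)))

/-- exactly `c` neighbours of degree `k` -/
def eqNb (k c : ℕ) (v : Bool) : G2 := .and (geNb k c v) (.neg (geNb k (c + 1) v))

/-- at least `c` neighbours of degree at least three -/
def geCo (c : ℕ) (v : Bool) : G2 := .cnt c (!v) (.and (.adj v (!v)) (geDeg 3 (!v)))

/-- exactly `c` neighbours of degree at least three -/
def eqCo (c : ℕ) (v : Bool) : G2 := .and (geCo c v) (.neg (geCo (c + 1) v))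

/-- false -/
def fF : G2 := .neg (.eq false false)

/-- or -/
def fO (φ ψ : G2) : G2 := .neg (.and (.neg φ) (.neg ψ))

/-- implication -/
def fI (φ ψ : G2) : G2 := .neg (.and φ (.neg ψ))

/-- finite disjunction -/
def fE : ℕ → (ℕ → G2) → G2
  | 0, _ => fF
  | n + 1, f => fO (fE n f) (f n)

variable {V : Type} (G : SimpleGraph V) (s : Bool → V)

lemma upd_not_same (v : Bool) (a : V) : Function.update s (!v) a v = s v :=
  Function.update_of_ne (by cases v <;> simp) _ _

lemma sat_geDeg (k : ℕ) (v : Bool) : (geDeg k v).Sat G s ↔ k ≤ dg G (s v) := by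
  show k ≤ {a | G.Adj (Function.update s (!v) a v) (Function.update s (!v) a (!v))}.ncard ↔ _
  simp only [upd_not_same, Function.update_self]
  rfl

lemma sat_eqDeg (k : ℕ) (v : Bool) : (eqDeg k v).Sat G s ↔ dg G (s v) = k := by
  show (geDeg k v).Sat G s ∧ ¬ (geDeg (k + 1) v).Sat G s ↔ _
  rw [sat_geDeg, sat_geDeg]; omega

lemma sat_geNb (k c : ℕ) (v : Bool) : (geNb k c v).Sat G s ↔ c ≤ nb G k (s v) := by
  show c ≤ {a | G.Adj (Function.update s (!v) a v) (Function.update s (!v) a (!v)) ∧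
    (eqDeg k (!v)).Sat G (Function.update s (!v) a)}.ncard ↔ _
  simp only [upd_not_same, Function.update_self, sat_eqDeg]
  rfl

lemma sat_eqNb (k c : ℕ) (v : Bool) : (eqNb k c v).Sat G s ↔ nb G k (s v) = c := by
  show (geNb k c v).Sat G s ∧ ¬ (geNb k (c + 1) v).Sat G s ↔ _
  rw [sat_geNb, sat_geNb]; omega

lemma sat_geCo (c : ℕ) (v : Bool) :
    (geCo c v).Sat G s ↔ c ≤ {y | G.Adj (s v) y ∧ 3 ≤ dg G y}.ncard := by
  show c ≤ {a | G.Adj (Function.update s (!v) a v) (Function.update s (!v) a (!v)) ∧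
    (geDeg 3 (!v)).Sat G (Function.update s (!v) a)}.ncard ↔ _
  simp only [upd_not_same, Function.update_self, sat_geDeg]

lemma sat_eqCo (c : ℕ) (v : Bool) :
    (eqCo c v).Sat G s ↔ {y | G.Adj (s v) y ∧ 3 ≤ dg G y}.ncard = c := by
  show (geCo c v).Sat G s ∧ ¬ (geCo (c + 1) v).Sat G s ↔ _
  rw [sat_geCo, sat_geCo]; omega

lemma sat_fF : ¬ fF.Sat G s := by
  show ¬ ¬ (s false = s false)
  simp

lemma sat_fO (φ ψ : G2) : (fO φ ψ).Sat G s ↔ φ.Sat G s ∨ ψ.Sat G s := by
  show ¬ (¬ φ.Sat G s ∧ ¬ ψ.Sat G s) ↔ _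
  tauto

lemma sat_fI (φ ψ : G2) : (fI φ ψ).Sat G s ↔ (φ.Sat G s → ψ.Sat G s) := by
  show ¬ (φ.Sat G s ∧ ¬ ψ.Sat G s) ↔ _
  tauto

lemma sat_fE (n : ℕ) (f : ℕ → G2) : (fE n f).Sat G s ↔ ∃ c < n, (f c).Sat G s := by
  induction n with
  | zero =>
    constructor
    · intro h; exact absurd h (sat_fF G s)
    · rintro ⟨c, hc, -⟩; omega
  | succ n ih =>
    rw [fE, sat_fO, ih]
    constructor
    · rintro (⟨c, hc, h⟩ | h)
      · exact ⟨c, by omega, h⟩
      · exact ⟨n, by omega, h⟩
    · rintro ⟨c, hc, h⟩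
      rcases Nat.lt_succ_iff_lt_or_eq.1 hc with hc | rfl
      · exact Or.inl ⟨c, hc, h⟩
      · exact Or.inr h

end forms

/-- the translation of the formulas -/
def tr (M : ℕ) : C2 → G2
  | .un i v => fE (M + 1) (fun c => if c.testBit i = true then eqNb 2 c v else fF)
  | .bi _ v w => .adj v w
  | .eq v w => .eq v w
  | .neg φ => .neg (tr M φ)
  | .and φ ψ => .and (tr M φ) (tr M ψ)
  | .cnt k v φ => .cnt k v (.and (geDeg 3 v) (tr M φ))

lemma sat_tr {V : Type} (G : SimpleGraph V) (M : ℕ) (hG : IsG G M) (φ : C2) :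
    ∀ s : Bool → {x // 3 ≤ dg G x}, (tr M φ).Sat G (fun w => (s w).1) ↔
      φ.Sat (fun i x => (nb G 2 x.1).testBit i = true) (fun _ x y => G.Adj x.1 y.1) s := by
  induction φ with
  | un i v =>
    intro s
    show (fE (M + 1) (fun c => if c.testBit i = true then eqNb 2 c v else fF)).Sat G _ ↔
      (nb G 2 (s v).1).testBit i = true
    rw [sat_fE]
    constructor
    · rintro ⟨c, hc, h⟩
      by_cases hi : c.testBit i = true
      · rw [if_pos hi, sat_eqNb] at h
        rw [h]; exact hi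
      · rw [if_neg hi] at h
        exact absurd h (sat_fF G _)
    · intro h
      have := hG.cor (s v).1 (s v).2
      refine ⟨nb G 2 (s v).1, by omega, ?_⟩
      rw [if_pos h, sat_eqNb]
  | bi i v w => intro s; exact Iff.rfl
  | eq v w =>
    intro s
    show (s v).1 = (s w).1 ↔ s v = s w
    exact Subtype.ext_iff.symm
  | neg φ ih => intro s; exact not_congr (ih s)
  | and φ ψ ih ih' => intro s; exact and_congr (ih s) (ih' s)
  | cnt k v φ ih =>
    intro s
    show k ≤ {a | (geDeg 3 v).Sat G (Function.update (fun w => (s w).1) v a) ∧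
      (tr M φ).Sat G (Function.update (fun w => (s w).1) v a)}.ncard ↔
      k ≤ {a | φ.Sat _ _ (Function.update s v a)}.ncard
    have hu : ∀ a : {x // 3 ≤ dg G x}, Function.update (fun w => (s w).1) v a.1 =
        fun w => (Function.update s v a w).1 := by
      intro a
      funext w
      by_cases hw : w = v
      · subst hw; rw [Function.update_self, Function.update_self]
      · rw [Function.update_of_ne hw, Function.update_of_ne hw]
    have he : {a | (geDeg 3 v).Sat G (Function.update (fun w => (s w).1) v a) ∧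
        (tr M φ).Sat G (Function.update (fun w => (s w).1) v a)} =
        Subtype.val '' {a : {x // 3 ≤ dg G x} |
          φ.Sat (fun i x => (nb G 2 x.1).testBit i = true) (fun _ x y => G.Adj x.1 y.1)
            (Function.update s v a)} := by
      ext a
      simp only [Set.mem_setOf_eq, Set.mem_image]
      constructor
      · rintro ⟨h1, h2⟩
        rw [sat_geDeg, Function.update_self] at h1
        refine ⟨⟨a, h1⟩, ?_, rfl⟩
        rw [← ih, ← hu]
        exact h2
      · rintro ⟨⟨a, ha⟩, h, rfl⟩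
        refine ⟨?_, ?_⟩
        · rw [sat_geDeg, Function.update_self]; exact ha
        · rw [← ih, ← hu] at h
          exact h
    rw [he, Set.ncard_image_of_injective _ Subtype.val_injective]

/-- the formula -/
def fin (M : ℕ) (φ : C2) : G2 :=
  .and (geDeg 1 false)
  (.and (fI (eqDeg 1 false) (fI (.adj false true) (geDeg 2 true)))
  (.and (fI (eqDeg 2 false) (.and (eqNb 1 1 false) (eqCo 1 false)))
  (.and (fI (geDeg 3 false) (fE (M + 1) (fun c => .and (eqNb 2 c false)
      (eqNb 1 (2 * M - 2 * c) false))))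
  (fI (geDeg 3 false) (fI (geDeg 3 true) (tr M φ))))))

theorem pf_ts : Y_TS := by
  intro φ b _
  set M := 2 ^ b - 1 with hM
  refine ⟨fin M φ, fun V _ _ G => ?_⟩
  have hsat : ∀ s : Bool → V, (fin M φ).Sat G s ↔ (1 ≤ dg G (s false) ∧
      (dg G (s false) = 1 → G.Adj (s false) (s true) → 2 ≤ dg G (s true)) ∧
      (dg G (s false) = 2 → nb G 1 (s false) = 1 ∧
        {y | G.Adj (s false) y ∧ 3 ≤ dg G y}.ncard = 1) ∧
      (3 ≤ dg G (s false) → ∃ c < M + 1, nb G 2 (s false) = c ∧
        nb G 1 (s false) = 2 * M - 2 * c) ∧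
      (3 ≤ dg G (s false) → 3 ≤ dg G (s true) → (tr M φ).Sat G s)) := by
    intro s
    show ((geDeg 1 false).Sat G s ∧ (fI (eqDeg 1 false) (fI (.adj false true)
      (geDeg 2 true))).Sat G s ∧ (fI (eqDeg 2 false) (.and (eqNb 1 1 false)
      (eqCo 1 false))).Sat G s ∧ (fI (geDeg 3 false) (fE (M + 1) (fun c => .and (eqNb 2 c false)
      (eqNb 1 (2 * M - 2 * c) false)))).Sat G s ∧
      (fI (geDeg 3 false) (fI (geDeg 3 true) (tr M φ))).Sat G s) ↔ _
    simp only [sat_fI, sat_geDeg, sat_eqDeg, sat_fE]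
    have h1 : ∀ c c', (G2.and (eqNb 2 c false) (eqNb 1 c' false)).Sat G s ↔
        (nb G 2 (s false) = c ∧ nb G 1 (s false) = c') := by
      intro c c'
      show (eqNb 2 c false).Sat G s ∧ (eqNb 1 c' false).Sat G s ↔ _
      rw [sat_eqNb, sat_eqNb]
    have h2 : (G2.and (eqNb 1 1 false) (eqCo 1 false)).Sat G s ↔
        (nb G 1 (s false) = 1 ∧ {y | G.Adj (s false) y ∧ 3 ≤ dg G y}.ncard = 1) := by
      show (eqNb 1 1 false).Sat G s ∧ (eqCo 1 false).Sat G s ↔ _
      rw [sat_eqNb, sat_eqCo]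
    have h3 : (G2.adj false true).Sat G s ↔ G.Adj (s false) (s true) := Iff.rfl
    simp only [h1, h2, h3]
  simp only [hsat]
  constructor
  · intro h
    have h0 : ∀ x y : V, _ := fun x y => h (fun w => cond w y x)
    simp only [cond_true, cond_false] at h0
    have hG : IsG G M := by
      refine ⟨fun x => (h0 x x).1, fun x hx y hxy => (h0 x y).2.1 hx hxy,
        fun x hx => (h0 x x).2.2.1 hx, fun x hx => ?_⟩
      obtain ⟨c, hc, h4, h5⟩ := (h0 x x).2.2.2.1 hx
      omega
    refine ⟨hG, fun s => ?_⟩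
    rw [← sat_tr G M hG]
    exact (h (fun w => (s w).1)).2.2.2.2 (s false).2 (s true).2
  · rintro ⟨hG, h⟩ s
    refine ⟨hG.pos _, fun h1 h2 => hG.leaf _ h1 _ h2, fun h1 => hG.mid _ h1, fun h1 => ?_,
      fun h1 h2 => ?_⟩
    · have := hG.cor _ h1
      exact ⟨nb G 2 (s false), by omega, rfl, by omega⟩
    · have hs : s = fun w => ((fun w => ⟨s w, by cases w; exacts [h1, h2]⟩ :
          Bool → {x // 3 ≤ dg G x}) w).1 := rfl
      rw [hs, sat_tr G M hG]
      exact h _

end Pool.Agent.H16.PU
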